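import Pool.Agent.TH943.HJ.Ded

/-!
Counting in the coordinate ring of `y ^ 2 = D(x)`, `deg D` odd: spaces of functions with bounded poles.
-/

set_option autoImplicit false
set_option maxHeartbeats 1000000

open Polynomial Pool.Agent.TH943.HJ

namespace Pool.Agent.Y496.CC

section mul

/-- Multiplicativity of the ideal norm in an infinite Dedekind domain. -/
theorem cardQuot_mul' {S : Type} [CommRing S] [IsDedekindDomain S] [Infinite S] (I J : Ideal S) :
    Nat.card (S ⧸ (I * J)) = Nat.card (S ⧸ I) * Nat.card (S ⧸ J) := by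
  have h := UniqueFactorizationMonoid.multiplicative_of_coprime
    (fun I : Ideal S => Submodule.cardQuot I) I J (Submodule.cardQuot_bot _ _)
      (fun {I J} hI => by simp [Ideal.isUnit_iff.mp hI, Ideal.mul_top])
      (fun {I} i hI =>
        have : Ideal.IsPrime I := Ideal.isPrime_of_prime hI
        cardQuot_pow_of_prime hI.ne_zero)
      fun {I J} hIJ => cardQuot_mul_of_coprime <| Ideal.isCoprime_iff_sup_eq.mpr
        (Ideal.isUnit_iff.mp
          (hIJ (Ideal.dvd_iff_le.mpr le_sup_left) (Ideal.dvd_iff_le.mpr le_sup_right)))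
  simpa only [Submodule.cardQuot_apply] using h

end mul

section

variable {k : Type} [Field k] {D : k[X]}

/-- pairs of polynomials as functions -/
noncomputable def elh (D : k[X]) : k[X] × k[X] →+ CR D where
  toFun z := el z.1 z.2
  map_zero' := by
    show (el 0 0 : CR D) = 0
    rw [el_left, map_zero]
  map_add' a b := by
    show (el (a.1 + b.1) (a.2 + b.2) : CR D) = el a.1 a.2 + el b.1 b.2
    unfold el
    rw [map_add, map_add]
    ring

theorem elh_apply (p r : k[X]) : elh D (p, r) = el p r := rfl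

theorem elh_inj : Function.Injective (elh D) := by
  rintro ⟨a, b⟩ ⟨c, d⟩ h
  obtain ⟨h1, h2⟩ := el_inj (F := D) h
  exact Prod.ext h1 h2

theorem elh_surj : Function.Surjective (elh D) := by
  intro z
  obtain ⟨p, q, rfl⟩ := exists_el z
  exact ⟨(p, q), rfl⟩

/-- the coefficient pair -/
noncomputable def cf (z : CR D) : k[X] × k[X] := (elh_surj z).choose

theorem elh_cf (z : CR D) : elh D (cf z) = z := (elh_surj z).choose_spec

theorem cf_el (p r : k[X]) : cf (el p r : CR D) = (p, r) :=
  elh_inj (elh_cf _)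

/-- the norm form -/
noncomputable def nn (z : CR D) : k[X] := (cf z).1 ^ 2 - D * (cf z).2 ^ 2

theorem nn_el (p r : k[X]) : nn (el p r : CR D) = p ^ 2 - D * r ^ 2 := by
  unfold nn
  rw [cf_el]

theorem pp_nn (z : CR D) : (pp (nn z) : CR D) = z * cj D z := by
  obtain ⟨p, r, rfl⟩ := exists_el z
  rw [nn_el, el_mul_cj]

theorem nn_mul (a b : CR D) : nn (a * b) = nn a * nn b := by
  apply pp_inj (F := D)
  rw [map_mul, pp_nn, pp_nn, pp_nn, map_mul]
  ring

/-- minus the order at infinity -/
noncomputable def dg (z : CR D) : ℕ := (nn z).natDegree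

variable (hodd : Odd D.natDegree)

include hodd

theorem nn_ne {z : CR D} (hz : z ≠ 0) : nn z ≠ 0 := by
  obtain ⟨p, r, rfl⟩ := exists_el z
  rw [nn_el]
  intro h
  obtain ⟨rfl, rfl⟩ := norm_ne hodd h
  exact hz (by rw [el_left, map_zero])

theorem dg_mul {a b : CR D} (ha : a ≠ 0) (hb : b ≠ 0) : dg (a * b) = dg a + dg b := by
  unfold dg
  rw [nn_mul, natDegree_mul (nn_ne hodd ha) (nn_ne hodd hb)]

end

section

variable {k : Type} [Field k] {D : k[X]} {g : ℕ}

theorem dg_le (hm : D.Monic) (hg : D.natDegree = 2 * g + 1) {M : ℕ} {p r : k[X]}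
    (h0 : (el p r : CR D) ≠ 0) :
    dg (el p r : CR D) ≤ M ↔ p ∈ degreeLT k (M / 2 + 1) ∧ r ∈ degreeLT k ((M + 1) / 2 - g) := by
  have hD : D ≠ 0 := hm.ne_zero
  unfold dg
  rw [nn_el, mem_degreeLT, mem_degreeLT]
  by_cases hp : p = 0
  · subst hp
    have hr : r ≠ 0 := by
      rintro rfl
      exact h0 (by rw [el_left, map_zero])
    rw [zero_pow two_ne_zero, zero_sub, natDegree_neg, natDegree_mul hD (pow_ne_zero 2 hr),
      natDegree_pow, hg, degree_eq_natDegree hr]
    constructor
    · intro h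
      refine ⟨by rw [degree_zero]; exact WithBot.bot_lt_coe _, ?_⟩
      have : r.natDegree < (M + 1) / 2 - g := by omega
      exact_mod_cast this
    · rintro ⟨-, h⟩
      have : r.natDegree < (M + 1) / 2 - g := by exact_mod_cast h
      omega
  by_cases hr : r = 0
  · subst hr
    rw [zero_pow two_ne_zero, mul_zero, sub_zero, natDegree_pow, degree_eq_natDegree hp]
    constructor
    · intro h
      refine ⟨?_, by rw [degree_zero]; exact WithBot.bot_lt_coe _⟩
      have : p.natDegree < M / 2 + 1 := by omega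
      exact_mod_cast this
    · rintro ⟨h, -⟩
      have : p.natDegree < M / 2 + 1 := by exact_mod_cast h
      omega
  have e1 : (p ^ 2).natDegree = 2 * p.natDegree := natDegree_pow _ _
  have e2 : (D * r ^ 2).natDegree = 2 * g + 1 + 2 * r.natDegree := by
    rw [natDegree_mul hD (pow_ne_zero 2 hr), natDegree_pow, hg]
  rw [degree_eq_natDegree hp, degree_eq_natDegree hr]
  have key : (p ^ 2 - D * r ^ 2).natDegree = max (2 * p.natDegree) (2 * g + 1 + 2 * r.natDegree) := by
    rcases lt_or_gt_of_ne (show (p ^ 2).natDegree ≠ (D * r ^ 2).natDegree by omega) with h | h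
    · rw [natDegree_sub_eq_right_of_natDegree_lt h, e2]
      rw [max_eq_right (by omega)]
    · rw [natDegree_sub_eq_left_of_natDegree_lt h, e1]
      rw [max_eq_left (by omega)]
  rw [key]
  constructor
  · intro h
    have h1 : p.natDegree < M / 2 + 1 := by
      have := le_trans (le_max_left _ _) h
      omega
    have h2 : r.natDegree < (M + 1) / 2 - g := by
      have := le_trans (le_max_right _ _) h
      omega
    exact ⟨by exact_mod_cast h1, by exact_mod_cast h2⟩
  · rintro ⟨h1, h2⟩
    have h1 : p.natDegree < M / 2 + 1 := by exact_mod_cast h1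
    have h2 : r.natDegree < (M + 1) / 2 - g := by exact_mod_cast h2
    apply max_le <;> omega

/-- functions with poles of order at most `M` at infinity -/
noncomputable def V (D : k[X]) (g M : ℕ) : AddSubgroup (CR D) :=
  (((degreeLT k (M / 2 + 1)).toAddSubgroup).prod
    ((degreeLT k ((M + 1) / 2 - g)).toAddSubgroup)).map (elh D)

theorem mem_V (hm : D.Monic) (hg : D.natDegree = 2 * g + 1) {M : ℕ} {z : CR D} :
    z ∈ V D g M ↔ z = 0 ∨ dg z ≤ M := by
  by_cases h0 : z = 0
  · subst h0
    simp [zero_mem]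
  · obtain ⟨p, r, rfl⟩ := exists_el z
    rw [dg_le hm hg h0]
    unfold V
    rw [AddSubgroup.mem_map]
    constructor
    · rintro ⟨⟨a, b⟩, hab, h⟩
      obtain ⟨rfl, rfl⟩ := el_inj (F := D) h
      rw [AddSubgroup.mem_prod] at hab
      exact Or.inr hab
    · rintro (h | h)
      · exact absurd h h0
      · exact ⟨(p, r), AddSubgroup.mem_prod.2 h, rfl⟩

theorem card_V [Finite k] (M : ℕ) :
    Nat.card (V D g M) = Nat.card k ^ ((M / 2 + 1) + ((M + 1) / 2 - g)) := by
  have h1 : Nat.card (V D g M) = Nat.card (((degreeLT k (M / 2 + 1)).toAddSubgroup).prod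
    ((degreeLT k ((M + 1) / 2 - g)).toAddSubgroup)) :=
    (Nat.card_congr (AddSubgroup.equivMapOfInjective _ _ elh_inj).toEquiv).symm
  rw [h1, Nat.card_congr (AddSubgroup.prodEquiv _ _).toEquiv, Nat.card_prod, pow_add]
  have h2 : ∀ n, Nat.card (degreeLT k n) = Nat.card k ^ n := fun n => by
    rw [Nat.card_congr (degreeLTEquiv k n).toEquiv, Nat.card_fun, Nat.card_fin]
  rw [← h2, ← h2]
  rfl

theorem card_V_large [Finite k] {M : ℕ} (hM : 2 * g ≤ M) :
    Nat.card (V D g M) = Nat.card k ^ (M + 1 - g) := by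
  rw [card_V]
  congr 1
  omega

theorem card_V_ge [Finite k] {M : ℕ} : Nat.card k ^ (M + 1 - g) ≤ Nat.card (V D g M) := by
  rw [card_V]
  apply Nat.pow_le_pow_right Nat.card_pos
  omega

instance [Finite k] (M : ℕ) : Finite (V D g M) := by
  apply Nat.finite_of_card_ne_zero
  rw [card_V]
  exact pow_ne_zero _ Nat.card_pos.ne'

end

end Pool.Agent.Y496.CC
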