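import Pool.Agent.Y496.CC.Quot

/-!
The class number formula for `k[x, √D]`, `deg D = 2 g + 1`: the number of ideals of norm `q ^ m` is
`h q ^ (m - g)` for large `m`, and every class contains an ideal of norm at most `q ^ g`.
-/

set_option autoImplicit false
set_option maxHeartbeats 1000000

open Polynomial Pool.Agent.TH943.HJ

namespace Pool.Agent.Y496.CC

section

variable {k : Type} [Field k] {D : k[X]} {g : ℕ}

/-- the units are the nonzero constants -/
theorem unit_const (hm : D.Monic) (hg : D.natDegree = 2 * g + 1) {u : CR D} (hu : IsUnit u) :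
    ∃ c : k, c ≠ 0 ∧ u = pp (C c) := by
  have hodd : Odd D.natDegree := ⟨g, hg⟩
  have hdom := isDomain hodd
  obtain ⟨v, hv⟩ := hu.exists_right_inv
  have h1 : dg u + dg v = 0 := by
    rw [← dg_mul hodd hu.ne_zero (right_ne_zero_of_mul_eq_one hv), hv]
    unfold dg
    have : (1 : CR D) = el 1 0 := by rw [el_left, map_one]
    rw [this, nn_el]
    simp
  have h2 : u ∈ V D g 0 := (mem_V hm hg).2 (Or.inr (by omega))
  obtain ⟨p, r, rfl⟩ := exists_el u
  have h3 := (dg_le hm hg hu.ne_zero).1 (show dg (el p r : CR D) ≤ 0 by omega)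
  have hr : r = 0 := by
    have h4 := mem_degreeLT.1 h3.2
    have h5 : (0 + 1) / 2 - g = 0 := by omega
    rw [h5] at h4
    by_contra hr
    rw [degree_eq_natDegree hr] at h4
    have : r.natDegree < 0 := by exact_mod_cast h4
    omega
  have hp : p = C (p.coeff 0) := by
    apply eq_C_of_degree_le_zero
    have h4 := mem_degreeLT.1 h3.1
    rw [← natDegree_eq_zero_iff_degree_le_zero]
    by_contra h5
    have h6 : p ≠ 0 := by
      rintro rfl
      exact h5 natDegree_zero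
    rw [degree_eq_natDegree h6] at h4
    have : p.natDegree < 0 / 2 + 1 := by exact_mod_cast h4
    omega
  subst hr
  rw [el_left]
  refine ⟨p.coeff 0, ?_, by rw [← hp]⟩
  intro h
  rw [h, C_0] at hp
  exact hu.ne_zero (by rw [el_left, hp, map_zero])

theorem isUnit_const {c : k} (hc : c ≠ 0) : IsUnit (pp (C c) : CR D) := by
  apply IsUnit.map
  exact isUnit_C.2 (isUnit_iff_ne_zero.2 hc)

variable [IsDedekindDomain (CR D)]

/-- the class of a nonzero ideal, `1` for zero -/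
noncomputable def cla (I : Ideal (CR D)) (h : I ≠ ⊥) : ClassGroup (CR D) :=
  ClassGroup.mk0 ⟨I, mem_nonZeroDivisors_iff_ne_zero.2 h⟩

theorem cla_mul {I J : Ideal (CR D)} (hI : I ≠ ⊥) (hJ : J ≠ ⊥) (hIJ : J * I ≠ ⊥) :
    cla (J * I) hIJ = cla J hJ * cla I hI := by
  unfold cla
  rw [← map_mul]
  rfl

theorem cla_one_iff {I : Ideal (CR D)} (hI : I ≠ ⊥) :
    cla I hI = 1 ↔ ∃ α : CR D, α ≠ 0 ∧ I = Ideal.span {α} := by
  unfold cla
  rw [ClassGroup.mk0_eq_one_iff]
  constructor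
  · intro h
    refine ⟨_, ?_, (Ideal.span_singleton_generator I).symm⟩
    intro h0
    rw [← Ideal.span_singleton_generator I, h0] at hI
    exact hI (by simp)
  · rintro ⟨α, -, rfl⟩
    exact ⟨α, rfl⟩

theorem mul_card [Finite k] (I J : Ideal (CR D)) :
    Nat.card (CR D ⧸ (I * J)) = Nat.card (CR D ⧸ I) * Nat.card (CR D ⧸ J) := by
  have := infinite_CR (D := D)
  exact cardQuot_mul' I J

/-- the ideals of a class of given norm -/
def Fib (D : k[X]) [IsDedekindDomain (CR D)] (c : ClassGroup (CR D)) (m : ℕ) : Set (Ideal (CR D)) :=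
  {I | ∃ h : I ≠ ⊥, cla I h = c ∧ Nat.card (CR D ⧸ I) = Nat.card k ^ m}

omit [IsDedekindDomain (CR D)] in
theorem span_unit (u : kˣ) (α : CR D) :
    Ideal.span {pp (C (u : k)) * α} = Ideal.span {α} := by
  obtain ⟨w, hw⟩ := isUnit_const (D := D) u.ne_zero
  apply le_antisymm
  · rw [Ideal.span_singleton_le_iff_mem]
    exact Ideal.mul_mem_left _ _ (Ideal.mem_span_singleton_self α)
  · rw [Ideal.span_singleton_le_iff_mem, Ideal.mem_span_singleton']
    refine ⟨(w⁻¹ : (CR D)ˣ), ?_⟩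
    rw [← hw, ← mul_assoc, Units.inv_mul, one_mul]

omit [IsDedekindDomain (CR D)] in
theorem dg_unit [Finite k] (hm : D.Monic) (hg : D.natDegree = 2 * g + 1) (u : kˣ) {α : CR D}
    (hα : α ≠ 0) : pp (C (u : k)) * α ≠ 0 ∧ dg (pp (C (u : k)) * α) = dg α := by
  have hodd : Odd D.natDegree := ⟨g, hg⟩
  have hdom := isDomain hodd
  have h1 : pp (C (u : k)) * α ≠ 0 := mul_ne_zero (isUnit_const u.ne_zero).ne_zero hα
  refine ⟨h1, ?_⟩
  have e := card_quot_span hm hg h1
  rw [span_unit, card_quot_span hm hg hα] at e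
  exact (Nat.pow_right_injective (one_lt_card (k := k)) e).symm

/-- generator of `J * I` -/
theorem exists_gen [Finite k] (hm : D.Monic) (hg : D.natDegree = 2 * g + 1)
    {c : ClassGroup (CR D)} {J : Ideal (CR D)} (hJ : J ≠ ⊥) (hJc : cla J hJ = c⁻¹) {j m : ℕ}
    (hj : Nat.card (CR D ⧸ J) = Nat.card k ^ j) (I : Ideal (CR D)) (hI : I ∈ Fib D c m) :
    ∃ α : CR D, α ≠ 0 ∧ J * I = Ideal.span {α} ∧ dg α = m + j := by
  obtain ⟨hI, hIc, hIm⟩ := hI
  have hne : J * I ≠ ⊥ := mul_ne_zero hJ hI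
  obtain ⟨α, h3, h4⟩ := (cla_one_iff hne).1 (by rw [cla_mul hI hJ, hIc, hJc, inv_mul_cancel])
  refine ⟨α, h3, h4, ?_⟩
  have h5 := card_quot_span hm hg h3
  rw [← h4, mul_card, hj, hIm, ← pow_add] at h5
  have := Nat.pow_right_injective (one_lt_card (k := k)) h5
  omega

theorem exists_ideal [Finite k] (hm : D.Monic) (hg : D.natDegree = 2 * g + 1)
    {c : ClassGroup (CR D)} {J : Ideal (CR D)} (hJ : J ≠ ⊥) (hJc : cla J hJ = c⁻¹) {j m : ℕ}
    (hj : Nat.card (CR D ⧸ J) = Nat.card k ^ j) (α : CR D) (hαJ : α ∈ J) (hα0 : α ≠ 0)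
    (hα : dg α = m + j) : ∃ I, I ∈ Fib D c m ∧ J * I = Ideal.span {α} := by
  have hdvd : J ∣ Ideal.span {α} := Ideal.dvd_iff_le.2 ((Ideal.span_singleton_le_iff_mem _).2 hαJ)
  obtain ⟨I, hI⟩ := hdvd
  have hs0 : Ideal.span {α} ≠ ⊥ := by
    rw [Ne, Ideal.span_singleton_eq_bot]
    exact hα0
  have hI0 : I ≠ ⊥ := by
    rintro rfl
    exact hs0 (by rw [hI, Ideal.mul_bot])
  have hne : J * I ≠ ⊥ := mul_ne_zero hJ hI0
  have hIc : cla I hI0 = c := by
    have h3 := (cla_one_iff hne).2 ⟨α, hα0, hI.symm⟩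
    rw [cla_mul hI0 hJ, hJc] at h3
    rw [← mul_one c, ← h3, mul_inv_cancel_left]
  have hIm : Nat.card (CR D ⧸ I) = Nat.card k ^ m := by
    have h5 := card_quot_span hm hg hα0
    rw [hI, mul_card, hj, hα, pow_add, mul_comm] at h5
    exact Nat.eq_of_mul_eq_mul_right (pow_pos Nat.card_pos _) h5
  exact ⟨I, ⟨hI0, hIc, hIm⟩, hI.symm⟩

omit [IsDedekindDomain (CR D)] in
theorem mul_gen_mem {I J : Ideal (CR D)} {α : CR D} (h : J * I = Ideal.span {α}) (b : CR D) :
    b * α ∈ J := by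
  have h3 : α ∈ J * I := by
    rw [h]
    exact Ideal.mem_span_singleton_self _
  exact Ideal.mul_mem_left _ _ (Ideal.mul_le_left h3)

theorem gen_bij [Finite k] (hm : D.Monic) (hg : D.natDegree = 2 * g + 1)
    {c : ClassGroup (CR D)} {J : Ideal (CR D)} (hJ : J ≠ ⊥) (hJc : cla J hJ = c⁻¹) {j m : ℕ}
    (hj : Nat.card (CR D ⧸ J) = Nat.card k ^ j) :
    Nat.card {α : CR D // α ∈ J ∧ α ≠ 0 ∧ dg α = m + j} =
      Nat.card (Fib D c m) * Nat.card kˣ := by
  have hodd : Odd D.natDegree := ⟨g, hg⟩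
  have hdom := isDomain hodd
  choose gen g1 g2 g3 using exists_gen (m := m) hm hg hJ hJc hj
  rw [← Nat.card_prod]
  symm
  have hmem : ∀ (I : Ideal (CR D)) (hI : I ∈ Fib D c m) (u : kˣ),
      pp (C (u : k)) * gen I hI ∈ J ∧ pp (C (u : k)) * gen I hI ≠ 0 ∧
        dg (pp (C (u : k)) * gen I hI) = m + j := by
    intro I hI u
    refine ⟨?_, (dg_unit hm hg u (g1 I hI)).1, ?_⟩
    · exact mul_gen_mem (g2 I hI) _
    · rw [(dg_unit hm hg u (g1 I hI)).2, g3 I hI]
  let f : Fib D c m × kˣ → {α : CR D // α ∈ J ∧ α ≠ 0 ∧ dg α = m + j} :=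
    fun x => ⟨pp (C (x.2 : k)) * gen x.1.1 x.1.2, hmem _ _ _⟩
  refine Nat.card_congr (Equiv.ofBijective f ⟨?_, ?_⟩)
  · rintro ⟨⟨I, hI⟩, u⟩ ⟨⟨I', hI'⟩, u'⟩ h
    have h3 : pp (C (u : k)) * gen I hI = pp (C (u' : k)) * gen I' hI' := congrArg Subtype.val h
    have h4 : J * I = J * I' := by
      rw [g2 I hI, g2 I' hI', ← span_unit u, ← span_unit u' (gen I' hI'), h3]
    have h5 : I = I' := mul_left_cancel₀ hJ h4
    subst h5
    have h6 : (pp (C (u : k)) : CR D) = pp (C (u' : k)) := mul_right_cancel₀ (g1 I hI) h3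
    have h7 : (u : k) = u' := C_injective (pp_inj h6)
    rw [Units.ext h7]
  · rintro ⟨α, hαJ, hα0, hα⟩
    obtain ⟨I, hI, hIα⟩ := exists_ideal hm hg hJ hJc hj α hαJ hα0 hα
    have h6 : Ideal.span {gen I hI} = Ideal.span {α} := by
      rw [← g2 I hI, hIα]
    rw [Ideal.span_singleton_eq_span_singleton] at h6
    obtain ⟨u, hu'⟩ := h6
    obtain ⟨b, hb0, hb⟩ := unit_const hm hg u.isUnit
    refine ⟨(⟨I, hI⟩, Units.mk0 b hb0), ?_⟩
    apply Subtype.ext
    show pp (C b) * gen I hI = α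
    rw [← hb, mul_comm]
    exact hu'

/-- the ideals of a class of given norm, counted -/
theorem class_fiber [Finite k] (hm : D.Monic) (hg : D.natDegree = 2 * g + 1)
    (c : ClassGroup (CR D)) :
    ∃ M₀, ∀ m, M₀ ≤ m → Nat.card (Fib D c m) = Nat.card k ^ (m - g) := by
  have hodd : Odd D.natDegree := ⟨g, hg⟩
  have hdom := isDomain hodd
  obtain ⟨⟨J, hJ'⟩, hJc⟩ := ClassGroup.mk0_surjective c⁻¹
  have hJ : J ≠ ⊥ := mem_nonZeroDivisors_iff_ne_zero.1 hJ'
  have hJc' : cla J hJ = c⁻¹ := hJc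
  obtain ⟨j, hj⟩ := card_quot_pow hodd hJ
  obtain ⟨M₀, h0, h1⟩ := card_exact (g := g) hm hg hJ hj
  refine ⟨M₀, fun m hm' => ?_⟩
  have h2 := h1 m hm'
  have hq := one_lt_card (k := k)
  rw [gen_bij hm hg hJ hJc' hj] at h2
  have h3 : Nat.card kˣ = Nat.card k - 1 := by
    classical
    have := Fintype.ofFinite k
    rw [Nat.card_eq_fintype_card, Nat.card_eq_fintype_card, Fintype.card_units]
  rw [h3] at h2
  exact Nat.eq_of_mul_eq_mul_right (by omega) h2

/-- every class contains an ideal of small norm -/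
theorem small [Finite k] (hm : D.Monic) (hg : D.natDegree = 2 * g + 1)
    (c : ClassGroup (CR D)) :
    ∃ I : Ideal (CR D), ∃ h : I ≠ ⊥, cla I h = c ∧ Nat.card (CR D ⧸ I) ≤ Nat.card k ^ g := by
  have hodd : Odd D.natDegree := ⟨g, hg⟩
  have hdom := isDomain hodd
  obtain ⟨⟨J, hJ'⟩, hJc⟩ := ClassGroup.mk0_surjective c⁻¹
  have hJ : J ≠ ⊥ := mem_nonZeroDivisors_iff_ne_zero.1 hJ'
  have hJc' : cla J hJ = c⁻¹ := hJc
  obtain ⟨j, hj⟩ := card_quot_pow hodd hJ
  have hq := one_lt_card (k := k)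
  have hfin := finite_quot hodd hJ
  obtain ⟨α, hαJ, hα0, hα⟩ : ∃ α : CR D, α ∈ J ∧ α ≠ 0 ∧ dg α ≤ g + j := by
    have h1 : Nat.card (CR D ⧸ J) < Nat.card (V D g (g + j)) := by
      refine lt_of_lt_of_le ?_ card_V_ge
      rw [hj]
      exact Nat.pow_lt_pow_right hq (by omega)
    have h2 : ¬ Function.Injective (red D g (g + j) J) := fun h =>
      absurd (Nat.card_le_card_of_injective _ h) (by omega)
    rw [injective_iff_map_eq_zero] at h2
    push Not at h2
    obtain ⟨v, hv, hv0⟩ := h2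
    have h3 : (v : CR D) ≠ 0 := fun h => hv0 (Subtype.ext h)
    refine ⟨v, (mem_ker_red v).1 hv, h3, ?_⟩
    rcases (mem_V hm hg).1 v.2 with h | h
    · exact absurd h h3
    · exact h
  have hdvd : J ∣ Ideal.span {α} := Ideal.dvd_iff_le.2 ((Ideal.span_singleton_le_iff_mem _).2 hαJ)
  obtain ⟨I, hI⟩ := hdvd
  have hs0 : Ideal.span {α} ≠ ⊥ := by
    rw [Ne, Ideal.span_singleton_eq_bot]
    exact hα0
  have hI0 : I ≠ ⊥ := by
    rintro rfl
    exact hs0 (by rw [hI, Ideal.mul_bot])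
  have hne : J * I ≠ ⊥ := mul_ne_zero hJ hI0
  refine ⟨I, hI0, ?_, ?_⟩
  · have h3 := (cla_one_iff hne).2 ⟨α, hα0, hI.symm⟩
    rw [cla_mul hI0 hJ, hJc'] at h3
    rw [← mul_one c, ← h3, mul_inv_cancel_left]
  · have h5 := card_quot_span hm hg hα0
    rw [hI, mul_card, hj] at h5
    have h6 : Nat.card k ^ j * Nat.card (CR D ⧸ I) ≤ Nat.card k ^ j * Nat.card k ^ g := by
      rw [h5, ← pow_add]
      exact Nat.pow_le_pow_right (by omega) (by omega)
    exact Nat.le_of_mul_le_mul_left h6 (pow_pos Nat.card_pos _)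

omit [IsDedekindDomain (CR D)] in
/-- finitely many ideals contain a given nonzero element -/
theorem finite_ideals [Finite k] (hodd : Odd D.natDegree) {α : CR D} (hα : α ≠ 0) :
    {I : Ideal (CR D) | α ∈ I}.Finite := by
  have hs0 : Ideal.span {α} ≠ ⊥ := by
    rw [Ne, Ideal.span_singleton_eq_bot]
    exact hα
  have hfin := finite_quot hodd hs0
  have hfi : Finite (Ideal (CR D ⧸ Ideal.span {α})) :=
    Finite.of_injective (fun I : Ideal (CR D ⧸ Ideal.span {α}) => (I : Set (CR D ⧸ Ideal.span {α})))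
      SetLike.coe_injective
  refine (Set.finite_range (fun I : Ideal (CR D ⧸ Ideal.span {α}) =>
    I.comap (Ideal.Quotient.mk (Ideal.span {α})))).subset ?_
  intro I hI
  refine ⟨I.map (Ideal.Quotient.mk (Ideal.span {α})), ?_⟩
  show Ideal.comap _ (Ideal.map _ I) = I
  rw [Ideal.comap_map_of_surjective _ Ideal.Quotient.mk_surjective]
  rw [← RingHom.ker_eq_comap_bot, Ideal.mk_ker, sup_eq_left, Ideal.span_singleton_le_iff_mem]
  exact hI

omit [IsDedekindDomain (CR D)] in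
theorem finite_norm_le [Finite k] (hg : D.natDegree = 2 * g + 1) (m : ℕ) :
    {I : Ideal (CR D) | I ≠ ⊥ ∧ Nat.card (CR D ⧸ I) ≤ Nat.card k ^ m}.Finite := by
  have hodd : Odd D.natDegree := ⟨g, hg⟩
  have hq := one_lt_card (k := k)
  have h1 : ((V D g (m + g) : Set (CR D)) \ {0}).Finite := by
    have : Finite ((V D g (m + g) : Set (CR D)) : Type) :=
      inferInstanceAs (Finite (V D g (m + g)))
    exact (Set.toFinite (V D g (m + g) : Set (CR D))).subset Set.sdiff_subset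
  refine (h1.biUnion (t := fun α => {I : Ideal (CR D) | α ∈ I}) fun α hα =>
    finite_ideals hodd hα.2).subset ?_
  rintro I ⟨hI, hIm⟩
  have hfin := finite_quot hodd hI
  have h1 : Nat.card (CR D ⧸ I) < Nat.card (V D g (m + g)) := by
    refine lt_of_le_of_lt hIm (lt_of_lt_of_le ?_ card_V_ge)
    exact Nat.pow_lt_pow_right hq (by omega)
  have h2 : ¬ Function.Injective (red D g (m + g) I) := fun h =>
    absurd (Nat.card_le_card_of_injective _ h) (by omega)
  rw [injective_iff_map_eq_zero] at h2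
  push Not at h2
  obtain ⟨v, hv, hv0⟩ := h2
  refine Set.mem_biUnion (x := (v : CR D)) ⟨v.2, fun h => hv0 (Subtype.ext h)⟩ ((mem_ker_red v).1 hv)

theorem finite_class [Finite k] (hm : D.Monic) (hg : D.natDegree = 2 * g + 1) :
    Finite (ClassGroup (CR D)) := by
  have h1 := finite_norm_le (k := k) hg g
  have : Finite {I : Ideal (CR D) | I ≠ ⊥ ∧ Nat.card (CR D ⧸ I) ≤ Nat.card k ^ g} := h1
  refine Finite.of_surjective (fun I : {I : Ideal (CR D) | I ≠ ⊥ ∧
    Nat.card (CR D ⧸ I) ≤ Nat.card k ^ g} => cla I.1 I.2.1) ?_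
  intro c
  obtain ⟨I, hI, h2, h3⟩ := small hm hg c
  exact ⟨⟨I, hI, h3⟩, h2⟩

end

theorem class_count {k : Type} [Field k] [Finite k] (h2 : (2 : k) ≠ 0) {D : k[X]} (hm : D.Monic)
    {g : ℕ} (hg : D.natDegree = 2 * g + 1) (hsq : Squarefree D) [IsDedekindDomain (CR D)] :
    Finite (ClassGroup (CR D)) ∧ (∃ M : ℕ, ∀ m, M ≤ m →
      Nat.card {I : Ideal (CR D) // Nat.card (CR D ⧸ I) = Nat.card k ^ m} =
        Nat.card (ClassGroup (CR D)) * Nat.card k ^ (m - g)) ∧
    (∀ c : ClassGroup (CR D), ∃ I : nonZeroDivisors (Ideal (CR D)), ClassGroup.mk0 I = c ∧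
      Nat.card (CR D ⧸ (I : Ideal (CR D))) ≤ Nat.card k ^ g) := by
  have hfin := finite_class (k := k) hm hg
  refine ⟨hfin, ?_, ?_⟩
  · choose M hM using fun c => class_fiber (k := k) hm hg c
    have := Fintype.ofFinite (ClassGroup (CR D))
    refine ⟨∑ c, M c, fun m hm' => ?_⟩
    have hMm : ∀ c, M c ≤ m := fun c =>
      (Finset.single_le_sum (fun _ _ => Nat.zero_le _) (Finset.mem_univ c)).trans hm'
    let cl : {I : Ideal (CR D) // Nat.card (CR D ⧸ I) = Nat.card k ^ m} → ClassGroup (CR D) :=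
      fun I => cla I.1 (ne_bot_of_card I.2)
    have hfib : ∀ c, Nat.card {x // cl x = c} = Nat.card k ^ (m - g) := by
      intro c
      rw [← hM c m (hMm c)]
      exact Nat.card_congr ⟨fun x => ⟨x.1.1, ne_bot_of_card x.1.2, x.2, x.1.2⟩,
        fun x => ⟨⟨x.1, x.2.2.2⟩, x.2.2.1⟩, fun x => rfl, fun x => rfl⟩
    have hff : ∀ c, Finite {x // cl x = c} := fun c => Nat.finite_of_card_ne_zero (by
      rw [hfib]
      exact pow_ne_zero _ Nat.card_pos.ne')
    rw [← Nat.card_congr (Equiv.sigmaFiberEquiv cl), Nat.card_sigma]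
    simp only [hfib]
    rw [Finset.sum_const, Finset.card_univ, smul_eq_mul,
      Nat.card_eq_fintype_card (α := ClassGroup (CR D))]
  · intro c
    obtain ⟨I, hI, h3, h4⟩ := small (k := k) hm hg c
    exact ⟨⟨I, mem_nonZeroDivisors_iff_ne_zero.2 hI⟩, h3, h4⟩

end Pool.Agent.Y496.CC
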