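import Pool.Agent.Y496.CC.Card

/-!
Counting in the coordinate ring of `y ^ 2 = D(x)`, `deg D` odd: quotients by ideals.
-/

set_option autoImplicit false
set_option maxHeartbeats 1000000

open Polynomial Pool.Agent.TH943.HJ

namespace Pool.Agent.Y496.CC

section

variable {k : Type} [Field k] {D : k[X]} {g : ℕ}

theorem surj_V (hodd : Odd D.natDegree) {J : Ideal (CR D)} (hJ : J ≠ ⊥) :
    ∃ M₀, 2 * g ≤ M₀ ∧ ∀ M, M₀ ≤ M → ∀ z : CR D, ∃ v ∈ V D g M, z - v ∈ J := by
  obtain ⟨z₀, hz₀, hne⟩ := Submodule.exists_mem_ne_zero_of_ne_bot hJ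
  have hA0 : nn z₀ ≠ 0 := nn_ne hodd hne
  have hAJ : (pp (nn z₀) : CR D) ∈ J := by
    rw [pp_nn]
    exact J.mul_mem_right _ hz₀
  refine ⟨2 * (nn z₀).natDegree + 2 * g, by omega, fun M hM z => ?_⟩
  obtain ⟨p, r, rfl⟩ := exists_el z
  refine ⟨el (p % nn z₀) (r % nn z₀), ?_, ?_⟩
  · refine AddSubgroup.mem_map.2 ⟨(p % nn z₀, r % nn z₀), AddSubgroup.mem_prod.2 ⟨?_, ?_⟩, rfl⟩
    · show p % nn z₀ ∈ degreeLT k (M / 2 + 1)
      rw [mem_degreeLT]
      refine (degree_mod_lt p hA0).trans_le ?_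
      rw [degree_eq_natDegree hA0]
      have : (nn z₀).natDegree ≤ M / 2 + 1 := by omega
      exact_mod_cast this
    · show r % nn z₀ ∈ degreeLT k ((M + 1) / 2 - g)
      rw [mem_degreeLT]
      refine (degree_mod_lt r hA0).trans_le ?_
      rw [degree_eq_natDegree hA0]
      have : (nn z₀).natDegree ≤ (M + 1) / 2 - g := by omega
      exact_mod_cast this
  · rw [el_sub]
    have e1 : ∀ p : k[X], p - p % nn z₀ = nn z₀ * (p / nn z₀) := fun p => by
      have := EuclideanDomain.div_add_mod p (nn z₀)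
      linear_combination -this
    have e2 : (el (nn z₀ * (p / nn z₀)) (nn z₀ * (r / nn z₀)) : CR D) =
        pp (nn z₀) * el (p / nn z₀) (r / nn z₀) := by
      unfold el
      rw [map_mul, map_mul]
      ring
    rw [e1, e1, e2]
    exact J.mul_mem_right _ hAJ

/-- the elements of `J` with bounded pole -/
noncomputable def W (D : k[X]) (g M : ℕ) (J : Ideal (CR D)) : AddSubgroup (CR D) :=
  V D g M ⊓ J.toAddSubgroup

theorem mem_W {M : ℕ} {J : Ideal (CR D)} {z : CR D} : z ∈ W D g M J ↔ z ∈ V D g M ∧ z ∈ J :=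
  Iff.rfl

/-- the reduction map -/
noncomputable def red (D : k[X]) (g M : ℕ) (J : Ideal (CR D)) : V D g M →+ (CR D ⧸ J) :=
  (Ideal.Quotient.mk J).toAddMonoidHom.comp (V D g M).subtype

theorem mem_ker_red {M : ℕ} {J : Ideal (CR D)} (v : V D g M) :
    v ∈ (red D g M J).ker ↔ (v : CR D) ∈ J := by
  rw [AddMonoidHom.mem_ker]
  exact Ideal.Quotient.eq_zero_iff_mem

theorem card_ker_red (M : ℕ) (J : Ideal (CR D)) :
    Nat.card (red D g M J).ker = Nat.card (W D g M J) := by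
  refine Nat.card_congr ⟨fun v => ⟨v.1.1, v.1.2, (mem_ker_red v.1).1 v.2⟩,
    fun w => ⟨⟨w.1, w.2.1⟩, (mem_ker_red _).2 w.2.2⟩, fun v => rfl, fun w => rfl⟩

theorem card_W_mul [Finite k] (hodd : Odd D.natDegree) {J : Ideal (CR D)} (hJ : J ≠ ⊥) :
    ∃ M₀, 2 * g ≤ M₀ ∧ ∀ M, M₀ ≤ M →
      Nat.card (W D g M J) * Nat.card (CR D ⧸ J) = Nat.card k ^ (M + 1 - g) := by
  obtain ⟨M₀, h0, h1⟩ := surj_V (g := g) hodd hJ
  refine ⟨M₀, h0, fun M hM => ?_⟩
  have hs : Function.Surjective (red D g M J) := by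
    intro x
    obtain ⟨z, rfl⟩ := Ideal.Quotient.mk_surjective x
    obtain ⟨v, hv, hzv⟩ := h1 M hM z
    refine ⟨⟨v, hv⟩, ?_⟩
    show Ideal.Quotient.mk J v = Ideal.Quotient.mk J z
    rw [eq_comm, Ideal.Quotient.eq]
    exact hzv
  have h2 := AddSubgroup.card_mul_index (red D g M J).ker
  rw [AddSubgroup.index_ker, card_ker_red, AddMonoidHom.range_eq_top.2 hs, card_V_large (by omega)] at h2
  rw [← h2, Nat.card_congr (AddSubgroup.topEquiv (G := CR D ⧸ J)).toEquiv]

theorem card_quot_pos [Finite k] (hodd : Odd D.natDegree) {J : Ideal (CR D)} (hJ : J ≠ ⊥) :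
    0 < Nat.card (CR D ⧸ J) := by
  obtain ⟨M₀, h0, h1⟩ := card_W_mul (g := 0) hodd hJ
  have := h1 M₀ le_rfl
  rw [Nat.pos_iff_ne_zero]
  intro h
  rw [h, mul_zero] at this
  exact (pow_ne_zero _ Nat.card_pos.ne') this.symm

theorem finite_quot [Finite k] (hodd : Odd D.natDegree) {J : Ideal (CR D)} (hJ : J ≠ ⊥) :
    Finite (CR D ⧸ J) := Nat.finite_of_card_ne_zero (card_quot_pos hodd hJ).ne'

theorem card_quot_pow [Finite k] (hodd : Odd D.natDegree) {J : Ideal (CR D)} (hJ : J ≠ ⊥) :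
    ∃ j, Nat.card (CR D ⧸ J) = Nat.card k ^ j := by
  have := finite_quot hodd hJ
  have : Module.Finite k (CR D ⧸ J) := Module.Finite.of_finite
  exact ⟨_, Module.natCard_eq_pow_finrank (K := k) (V := CR D ⧸ J)⟩

theorem one_lt_card [Finite k] : 1 < Nat.card k := Finite.one_lt_card

theorem card_quot_span [Finite k] (hm : D.Monic) (hg : D.natDegree = 2 * g + 1) {α : CR D}
    (hα : α ≠ 0) : Nat.card (CR D ⧸ Ideal.span {α}) = Nat.card k ^ dg α := by
  have hodd : Odd D.natDegree := ⟨g, hg⟩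
  have hdom := isDomain hodd
  have hJ : Ideal.span {α} ≠ ⊥ := by
    rw [Ne, Ideal.span_singleton_eq_bot]
    exact hα
  obtain ⟨M₀, h0, h1⟩ := card_W_mul (g := g) hodd hJ
  have h2 := h1 (M₀ + dg α) (by omega)
  have h3 : Nat.card (W D g (M₀ + dg α) (Ideal.span {α})) = Nat.card (V D g M₀) := by
    symm
    refine Nat.card_congr (Equiv.ofBijective (fun v => ⟨α * v.1, ?_, ?_⟩) ⟨?_, ?_⟩)
    · show α * v.1 ∈ V D g (M₀ + dg α)
      rw [mem_V hm hg]
      rcases (mem_V hm hg).1 v.2 with h | h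
      · left; rw [h, mul_zero]
      · by_cases hv : v.1 = 0
        · left; rw [hv, mul_zero]
        · right
          rw [dg_mul hodd hα hv]
          omega
    · exact Ideal.mul_mem_right _ _ (Ideal.mem_span_singleton_self α)
    · intro v w h
      apply Subtype.ext
      exact mul_left_cancel₀ hα (congrArg Subtype.val h)
    · rintro ⟨w, hw, hw'⟩
      obtain ⟨v, rfl⟩ := Ideal.mem_span_singleton'.1 hw'
      refine ⟨⟨v, ?_⟩, Subtype.ext (mul_comm _ _)⟩
      rw [mem_V hm hg]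
      by_cases hv : v = 0
      · exact Or.inl hv
      right
      rcases (mem_V hm hg).1 hw with h | h
      · exact absurd h (mul_ne_zero hv hα)
      · rw [dg_mul hodd hv hα] at h
        omega
  rw [h3, card_V_large h0] at h2
  have h4 : M₀ + dg α + 1 - g = (M₀ + 1 - g) + dg α := by omega
  rw [h4, pow_add] at h2
  exact Nat.eq_of_mul_eq_mul_left (pow_pos Nat.card_pos _) h2

theorem infinite_CR : Infinite (CR D) :=
  Infinite.of_injective (pp : k[X] → CR D) pp_inj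

theorem card_quot_bot : Nat.card (CR D ⧸ (⊥ : Ideal (CR D))) = 0 := by
  have := infinite_CR (D := D)
  rw [Nat.card_congr (RingEquiv.quotientBot (CR D)).toEquiv]
  exact Nat.card_eq_zero_of_infinite

theorem ne_bot_of_card [Finite k] {I : Ideal (CR D)} {m : ℕ}
    (h : Nat.card (CR D ⧸ I) = Nat.card k ^ m) : I ≠ ⊥ := by
  rintro rfl
  rw [card_quot_bot] at h
  exact (pow_ne_zero _ Nat.card_pos.ne') h.symm

/-- number of elements of `J` with exact pole order -/
theorem card_exact [Finite k] (hm : D.Monic) (hg : D.natDegree = 2 * g + 1)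
    {J : Ideal (CR D)} (hJ : J ≠ ⊥) {j : ℕ} (hj : Nat.card (CR D ⧸ J) = Nat.card k ^ j) :
    ∃ M₀, g ≤ M₀ ∧ ∀ m, M₀ ≤ m →
      Nat.card {α : CR D // α ∈ J ∧ α ≠ 0 ∧ dg α = m + j} =
        Nat.card k ^ (m - g) * (Nat.card k - 1) := by
  have hodd : Odd D.natDegree := ⟨g, hg⟩
  obtain ⟨M₀, h0, h1⟩ := card_W_mul (g := g) hodd hJ
  refine ⟨M₀ + g + j + 1, by omega, fun m hm' => ?_⟩
  have hq := one_lt_card (k := k)
  have hW : ∀ M, M₀ ≤ M → j + g ≤ M + 1 → Nat.card (W D g M J) = Nat.card k ^ (M + 1 - g - j) := by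
    intro M hM hM'
    have h2 := h1 M hM
    rw [hj] at h2
    have h4 : M + 1 - g = (M + 1 - g - j) + j := by omega
    rw [h4, pow_add] at h2
    exact Nat.eq_of_mul_eq_mul_right (pow_pos Nat.card_pos _) h2
  have e1 := hW (m + j) (by omega) (by omega)
  have e2 := hW (m + j - 1) (by omega) (by omega)
  have f1 : m + j + 1 - g - j = (m - g) + 1 := by omega
  have f2 : m + j - 1 + 1 - g - j = m - g := by omega
  rw [f1] at e1
  rw [f2] at e2
  -- split
  have hfin : Finite (W D g (m + j) J) := Nat.finite_of_card_ne_zero (by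
    rw [e1]; exact pow_ne_zero _ (by omega))
  classical
  have hs : {α : CR D | α ∈ J ∧ α ≠ 0 ∧ dg α = m + j} =
      (W D g (m + j) J : Set (CR D)) \ (W D g (m + j - 1) J : Set (CR D)) := by
    ext α
    simp only [Set.mem_ofPred_eq, Set.mem_sdiff, SetLike.mem_coe, mem_W, mem_V hm hg]
    constructor
    · rintro ⟨a, b, c⟩
      refine ⟨⟨Or.inr (by omega), a⟩, ?_⟩
      rintro ⟨h | h, -⟩
      · exact b h
      · omega
    · rintro ⟨⟨h | h, a⟩, b⟩
      · exact absurd ⟨Or.inl h, a⟩ b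
      · have hα : α ≠ 0 := fun h' => b ⟨Or.inl h', a⟩
        refine ⟨a, hα, ?_⟩
        have : ¬ dg α ≤ m + j - 1 := fun h' => b ⟨Or.inr h', a⟩
        omega
  have hsub : (W D g (m + j - 1) J : Set (CR D)) ⊆ (W D g (m + j) J : Set (CR D)) := by
    intro α
    simp only [SetLike.mem_coe, mem_W, mem_V hm hg]
    rintro ⟨h | h, a⟩
    · exact ⟨Or.inl h, a⟩
    · exact ⟨Or.inr (by omega), a⟩
  have hfin' : ((W D g (m + j) J : Set (CR D))).Finite := by
    have : Finite ((W D g (m + j) J : Set (CR D)) : Type) := hfin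
    exact Set.toFinite _
  have hc := Set.ncard_sdiff hsub (hfin'.subset hsub)
  rw [← hs] at hc
  have hc' : Nat.card {α : CR D // α ∈ J ∧ α ≠ 0 ∧ dg α = m + j} =
      Nat.card (W D g (m + j) J) - Nat.card (W D g (m + j - 1) J) := hc
  rw [hc', e1, e2, Nat.mul_sub_one, pow_succ]

end

end Pool.Agent.Y496.CC
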